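import Mathlib
import Pool.Agent.Y685.G9
import Pool.Agent.Y776.FinD

/-!
# The elliptico-toric conjecture: reduction of all failures to failures over a closed field
-/

set_option autoImplicit false

open Filter Finset Module
open scoped Topology PeriodPair

noncomputable section

namespace Pool.Agent.Y776.ET2

open H667R3 Pool.Agent.W245.EB Pool.Agent.TH813.Ell Pool.Agent.Y776 Pool.Agent.Y685
open Pool.Agent.TH813.Rel (DF MK subset_cl rk_le_of_subset_cl cl_of_base exists_derF mem_cl)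

variable {n s : ℕ} {L L' : PeriodPair} {c : ℂ} {K : Subfield ℂ}

/-- the space of the points -/
def V₂ (L : PeriodPair) (p : Fin n → ℂ) : Submodule (kL L) ℂ :=
  P₂ L ⊔ Submodule.span (kL L) (Set.range p)

theorem kill_GenL {δ : Derivation ℚ ℂ ℂ} (hG : ∀ x ∈ GenL L, δ x = 0) :
    δ L.g₂ = 0 ∧ δ L.g₃ = 0 ∧ (∀ a ∈ P₂ L, δ a = 0 ∧ om L δ a = 0 ∧ et L δ a = 0) ∧
      δ (eta L L.ω₁) = 0 ∧ δ (eta L L.ω₂) = 0 := by
  have h2 : δ L.g₂ = 0 := hG _ (by left; rfl)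
  have h3 : δ L.g₃ = 0 := hG _ (by right; left; rfl)
  have h4 : δ L.ω₁ = 0 := hG _ (by right; right; left; rfl)
  have h5 : δ L.ω₂ = 0 := hG _ (by right; right; right; left; rfl)
  have h6 : δ (eta L L.ω₁) = 0 := hG _ (by right; right; right; right; left; rfl)
  have h7 : δ (eta L L.ω₂) = 0 := hG _ (by right; right; right; right; right; rfl)
  refine ⟨h2, h3, ?_, h6, h7⟩
  refine (per_killed h2 h3 h4 h5 ?_ ?_).2
  · rwa [← eta_half L.ω₁_mem_lattice (half₁ L)]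
  · rwa [← eta_half L.ω₂_mem_lattice (half₂ L)]

/-- the space of the points is killed -/
theorem kill_V₂ {δ : Derivation ℚ ℂ ℂ} (hG : ∀ x ∈ GenL L, δ x = 0) {p : Fin n → ℂ}
    (h : ∀ x ∈ EP L p, δ x = 0) {v : ℂ} (hv : v ∈ V₂ L p) :
    δ v = 0 ∧ om L δ v = 0 ∧ et L δ v = 0 := by
  obtain ⟨h2, h3, hP, -, -⟩ := kill_GenL hG
  obtain ⟨κ, hE⟩ := exists_eig L
  have h1 : V₂ L p ≤ KSp hE h2 h3 := by
    refine sup_le (fun a ha => hP a ha) ?_
    rw [Submodule.span_le]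
    rintro _ ⟨i, rfl⟩
    have e1 : om L δ (p i) = 0 := om_of_kill (h _ (Or.inr (Or.inr ⟨i, rfl⟩)))
    refine ⟨h _ (Or.inl ⟨i, rfl⟩), e1, ?_⟩
    unfold et
    rw [e1, mul_zero, add_zero]
    exact h _ (Or.inr (Or.inl ⟨i, rfl⟩))
  exact h1 hv

theorem kill_V₂' {δ : Derivation ℚ ℂ ℂ} (hG : ∀ x ∈ GenL L, δ x = 0) {p : Fin n → ℂ}
    (h : ∀ x ∈ EP L p, δ x = 0) {v : ℂ} (hv : v ∈ V₂ L p) (hvL : v ∉ L.lattice) :
    δ v = 0 ∧ δ (zt L v) = 0 ∧ δ (℘[L] v) = 0 := by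
  obtain ⟨h2, h3, -⟩ := kill_GenL hG
  obtain ⟨a1, a2, a3⟩ := kill_V₂ hG h hv
  refine ⟨a1, ?_, (wp_killed h2 h3 a2 hvL).1⟩
  rw [et, a2, mul_zero, add_zero] at a3
  exact a3

theorem half_P₂ {w : ℂ} (hw : w ∈ L.lattice) : w / 2 ∈ P₂ L :=
  ⟨2, two_pos, by
    have : ((2 : ℕ) : ℂ) * (w / 2) = w := by push_cast; ring
    rw [this]; exact hw⟩

/-- the numbers of the scaled lattice -/
theorem sub_cl' {C : IntermediateField ℚ ℂ} (h : Hm L L' c)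
    (hcδ : ∀ δ : Derivation ℚ ℂ ℂ, δ L.g₂ = 0 → δ L.g₃ = 0 → δ c = 0) {t : Fin s → ℂ}
    {p : Fin n → ℂ} {a m : ℕ} {u : Fin a → ℂ} (hu : ∀ i, u i ∈ VT t) {v : Fin m → ℂ}
    (hv : ∀ i, v i ∈ V₂ L p) (hvL : ∀ i, v i ∉ L.lattice) :
    GA L' u (fun i => c * v i) ⊆ (MK C).closure (GA L t p) := by
  intro x hx
  rw [mem_cl_iff]
  intro δ _ hS
  have hG : ∀ x ∈ GenL L, δ x = 0 := fun x hx => hS x (Or.inl hx)
  have hT : ∀ x ∈ ET t, δ x = 0 := fun x hx => hS x (Or.inr (Or.inl hx))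
  have hE : ∀ x ∈ EP L p, δ x = 0 := fun x hx => hS x (Or.inr (Or.inr hx))
  obtain ⟨h2, h3, hP, -⟩ := kill_GenL hG
  have hc := hcδ δ h2 h3
  have hd : ∀ (m : ℕ) (y : ℂ), δ y = 0 → δ (y / c ^ m) = 0 := by
    intro m y hy
    rw [Derivation.leibniz_div, hy, Derivation.leibniz_pow, hc]
    simp
  have hk : ∀ i, _ := fun i => kill_V₂' hG hE (hv i) (hvL i)
  have hω : ∀ w ∈ L'.lattice, δ w = 0 := by
    intro w hw
    have h1 := (h.symm.mem w).2 hw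
    have h4 := (hP _ (lattice_le_P₂ h1)).1
    have h5 : w = c * (c⁻¹ * w) := by have := h.c0; field_simp
    rw [h5, D_mul, hc, h4]
    ring
  have hη : ∀ w ∈ L'.lattice, w / 2 ∉ L'.lattice → δ (eta L' w) = 0 := by
    intro w hw hw2
    have h1 := (h.symm.mem w).2 hw
    have h5 : w / 2 = c * (c⁻¹ * w / 2) := by have := h.c0; field_simp
    have h6 : c⁻¹ * w / 2 ∉ L.lattice := by
      rw [h5] at hw2
      exact h.notMem.1 hw2
    have h7 := kill_V₂' hG hE (Submodule.mem_sup_left (half_P₂ h1)) h6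
    rw [eta_half hw hw2, ← zt_of_notMem hw2, h5, h.zt, D_mul]
    have h8 := hd 1 _ h7.2.1
    rw [pow_one] at h8
    rw [h8, show δ (2 : ℂ) = 0 from δ.map_natCast 2]
    ring
  rcases hx with (rfl | rfl | rfl | rfl | rfl | rfl) | (⟨i, rfl⟩ | ⟨i, rfl⟩) | ⟨i, rfl⟩ | ⟨i, rfl⟩ |
    ⟨i, rfl⟩
  · rw [h.g₂]; exact hd 4 _ h2
  · rw [h.g₃]; exact hd 6 _ h3
  · exact hω _ L'.ω₁_mem_lattice
  · exact hω _ L'.ω₂_mem_lattice
  · exact hη _ L'.ω₁_mem_lattice (half₁ L')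
  · exact hη _ L'.ω₂_mem_lattice (half₂ L')
  · exact kill_VT hG hT (Or.inl (hu i))
  · exact kill_VT hG hT (Or.inr ⟨_, hu i, rfl⟩)
  · change δ (c * v i) = 0
    rw [D_mul, hc, (hk i).1]
    ring
  · change δ (zt L' (c * v i)) = 0
    rw [h.zt]
    have := hd 1 _ (hk i).2.1
    rwa [pow_one] at this
  · change δ (℘[L'] (c * v i)) = 0
    rw [h.wp]
    exact hd 2 _ (hk i).2.2

/-- all numbers are in the field -/
theorem GA_mem (hK : Fld K) (hL' : L' ∈ LK K) {a m : ℕ} {u : Fin a → ℂ} (hu : ∀ i, u i ∈ K)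
    {q : Fin m → ℂ} (hq : ∀ i, q i ∈ K) : GA L' u q ⊆ K := by
  have hη : ∀ w ∈ L'.lattice, w / 2 ∉ L'.lattice → eta L' w ∈ K := by
    intro w hw hw2
    rw [eta_half hw hw2, ← zt_of_notMem hw2]
    exact mul_mem (ofNat_mem K 2) (hK.zt _ hL' _ (div_mem (lat_mem hL' hw) (ofNat_mem K 2)))
  rintro x ((rfl | rfl | rfl | rfl | rfl | rfl) | (⟨i, rfl⟩ | ⟨i, rfl⟩) | ⟨i, rfl⟩ | ⟨i, rfl⟩ |
    ⟨i, rfl⟩)
  · exact hK.g₂ _ hL'
  · exact hK.g₃ _ hL'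
  · exact hL'.1
  · exact hL'.2
  · exact hη _ L'.ω₁_mem_lattice (half₁ L')
  · exact hη _ L'.ω₂_mem_lattice (half₂ L')
  · exact hu i
  · exact hK.exp _ (hu i)
  · exact hq i
  · exact hK.zt _ hL' _ (hq i)
  · exact hK.wp _ hL' _ (hq i)

/-- dimensions modulo a space -/
theorem dim_mod {k : Type*} [Field k] [Module k ℂ] {A : Submodule k ℂ} {m : ℕ} {z : Fin m → ℂ}
    (hz : LinearIndependent k z) (hzA : A ⊓ Submodule.span k (Set.range z) = ⊥) :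
    finrank k (Submodule.span k (Set.range (fun i => A.mkQ (z i)))) = m := by
  have h1 : LinearIndependent k (fun i => A.mkQ (z i)) := by
    refine hz.map ?_
    rw [Submodule.ker_mkQ, disjoint_iff, inf_comm]
    exact hzA
  rw [finrank_span_eq_card h1, Fintype.card_fin]

end Pool.Agent.Y776.ET2
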