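import Mathlib
import Pool.Agent.Y776.ET.Red

/-!
# The elliptico-toric conjecture: all failures come from a countable set of failures
-/

set_option autoImplicit false

open Filter Finset Module
open scoped Topology PeriodPair

noncomputable section

namespace Pool.Agent.Y776.ET2

open H667R3 Pool.Agent.W245.EB Pool.Agent.TH813.Ell Pool.Agent.Y776 Pool.Agent.Y685
open Pool.Agent.TH813.Rel (DF MK subset_cl rk_le_of_subset_cl cl_of_base exists_derF mem_cl)

variable {n s : ℕ} {L L' : PeriodPair} {c : ℂ} {K : Subfield ℂ}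

/-- the dimension of the points -/
def d₂ (L : PeriodPair) (p : Fin n → ℂ) : ℕ :=
  finrank (kL L) (Submodule.span (kL L) (Set.range (fun i => (P₂ L).mkQ (p i))))

/-- the dimension of the exponents -/
def d₁ (t : Fin s → ℂ) : ℕ :=
  finrank ℚ (Submodule.span ℚ (Set.range (fun i => P₁.mkQ (t i))))

theorem d₁_eq (t : Fin s → ℂ) : d₁ t + 1 = finrank ℚ (VT t) := by
  have h := finrank_mod P₁ t
  rw [finrank_P₁] at h
  exact h

theorem d₂_eq (p : Fin n → ℂ) : d₂ L p + finrank (kL L) (P₂ L) = finrank (kL L) (V₂ L p) :=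
  finrank_mod (P₂ L) p

instance (p : Fin n → ℂ) : FiniteDimensional (kL L) (V₂ L p) := by
  have : FiniteDimensional (kL L) (Submodule.span (kL L) (Set.range p)) :=
    FiniteDimensional.span_of_finite (kL L) (Set.finite_range p)
  unfold V₂
  infer_instance

theorem kL_eq (h : Hm L L' c) : kL L' = kL L := by
  ext x
  exact h.kL

section

variable {k : Type} [Field k] [Algebra k ℂ]

/-- a basis of a rational space -/
theorem exists_basisQ (X : Submodule ℚ ℂ) [FiniteDimensional ℚ X] :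
    ∃ u : Fin (finrank ℚ X) → ℂ, LinearIndependent ℚ u ∧ (∀ i, u i ∈ X) ∧
      Submodule.span ℚ (Set.range u) = X := by
  let b := finBasis ℚ X
  refine ⟨fun i => (b i : ℂ), b.linearIndependent.map' X.subtype (Submodule.ker_subtype _),
    fun i => (b i).2, ?_⟩
  have h3 : Set.range (fun i => (b i : ℂ)) = X.subtype '' Set.range b := by
    rw [← Set.range_comp]
    rfl
  rw [h3, Submodule.span_image, b.span_eq, Submodule.map_top, Submodule.range_subtype]

/-- **The reduction**, lattices with `j` in the field -/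
theorem reduceB (hK : Fld K) (hk : ∀ x : k, algebraMap k ℂ x ∈ K) {L : PeriodPair}
    (hj : jv L ∈ K) {t : Fin s → ℂ} {p : Fin n → ℂ} {d : ℕ}
    (hd : (MK k).eRk (GA L t p) + d ≤ ((d₁ t + 4 / finrank ℚ (kL L) + 2 * d₂ L p : ℕ) : ℕ∞)) :
    ∃ (L' : PeriodPair) (c : ℂ), Hm L L' c ∧ L' ∈ LK K ∧ ∃ (a m : ℕ) (u : Fin a → ℂ)
      (q : Fin m → ℂ), (∀ i, u i ∈ VT t) ∧ (∀ i, u i ∈ K) ∧ (∀ i, q i ∈ V₂ L p) ∧
      (∀ i, c * q i ∈ K) ∧ (∀ i, q i ∉ L.lattice) ∧
      (MK k).eRk (GA L' u (fun i => c * q i)) + d ≤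
        ((d₁ u + 4 / finrank ℚ (kL L') + 2 * d₂ L' (fun i => c * q i) : ℕ) : ℕ∞) := by
  classical
  obtain ⟨L', c, h, hL', hcδ⟩ := exists_norm hK hj
  have hc0 := h.c0
  have hkK : ∀ a ∈ kL L, a ∈ K := fun a ha => kL_mem hL' (h.kL.2 ha)
  -- the points
  set X := V₂ L p with hX
  let cK : Submodule (kL L) ℂ :=
    { carrier := {x | c * x ∈ K}
      add_mem' := fun {a b} ha hb => by
        rw [Set.mem_ofPred_eq] at ha hb ⊢
        rw [mul_add]; exact add_mem ha hb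
      zero_mem' := by
        rw [Set.mem_ofPred_eq, mul_zero]; exact zero_mem K
      smul_mem' := fun a x hx => by
        rw [Set.mem_ofPred_eq] at hx ⊢
        have e : c * (a • x) = (a : ℂ) * (c * x) := by
          change c * ((a : ℂ) * x) = _
          ring
        rw [e]
        exact mul_mem (hkK _ a.2) hx }
  have hP2 : P₂ L ≤ X ⊓ cK := by
    refine le_inf le_sup_left ?_
    rintro x ⟨N, hN, hx⟩
    change c * x ∈ K
    have h1 := lat_mem hL' ((h.mem _).2 hx)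
    have hN0 : (N : ℂ) ≠ 0 := by exact_mod_cast hN.ne'
    have h2 : c * x = c * (N * x) / N := by field_simp
    rw [h2]
    exact div_mem h1 (natCast_mem K N)
  have hAX : X ⊓ cK ≤ X := inf_le_left
  have hXf : FiniteDimensional (kL L) X := by rw [hX]; infer_instance
  obtain ⟨Y, hYX, hYA, hYn⟩ := exists_rel_compl hAX
  have hAf : FiniteDimensional (kL L) (X ⊓ cK : Submodule (kL L) ℂ) :=
    Submodule.finiteDimensional_of_le hAX
  have hYf : FiniteDimensional (kL L) Y := Submodule.finiteDimensional_of_le hYX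
  obtain ⟨Z, hZA, hZP, hZn⟩ := exists_rel_compl hP2
  have hZf : FiniteDimensional (kL L) Z := Submodule.finiteDimensional_of_le hZA
  obtain ⟨m, hm, q, hq, hqA, hqL⟩ : ∃ m, m = finrank (kL L) Z ∧
      ∃ q : Fin m → ℂ, LinearIndependent (kL L) q ∧ (∀ i, q i ∈ Z) ∧
        ∀ i, q i ∉ L.lattice := ⟨_, rfl, exists_basis_off _⟩
  obtain ⟨y, hy, r, hr, hrY, hrL⟩ : ∃ y, y = finrank (kL L) Y ∧
      ∃ r : Fin y → ℂ, LinearIndependent (kL L) r ∧ (∀ i, r i ∈ Y) ∧
        ∀ i, r i ∉ L.lattice := ⟨_, rfl, exists_basis_off _⟩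
  have hqK : ∀ i, c * q i ∈ K := fun i => (hZA (hqA i)).2
  have hqX : ∀ i, q i ∈ X := fun i => (hZA (hqA i)).1
  -- the exponents
  have hP1 : P₁ ≤ VT t ⊓ FQ (IFd K) := by
    refine le_inf le_sup_left ?_
    unfold P₁
    rw [Submodule.span_le]
    rintro _ rfl
    exact hK.pi
  have hBf : FiniteDimensional ℚ (VT t ⊓ FQ (IFd K) : Submodule ℚ ℂ) :=
    Submodule.finiteDimensional_of_le inf_le_left
  obtain ⟨W, hWX, hWB, hWn⟩ := exists_rel_compl (inf_le_left : VT t ⊓ FQ (IFd K) ≤ VT t)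
  have hWf : FiniteDimensional ℚ W := Submodule.finiteDimensional_of_le hWX
  obtain ⟨U, hUB, hUP, hUn⟩ := exists_rel_compl hP1
  have hUf : FiniteDimensional ℚ U := Submodule.finiteDimensional_of_le hUB
  obtain ⟨a, ha, u, hu, huU, huS⟩ : ∃ a, a = finrank ℚ U ∧ ∃ u : Fin a → ℂ,
      LinearIndependent ℚ u ∧ (∀ i, u i ∈ U) ∧ Submodule.span ℚ (Set.range u) = U :=
    ⟨_, rfl, exists_basisQ _⟩
  obtain ⟨b, hb, v, hv, hvW, hvS⟩ : ∃ b, b = finrank ℚ W ∧ ∃ v : Fin b → ℂ,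
      LinearIndependent ℚ v ∧ (∀ i, v i ∈ W) ∧ Submodule.span ℚ (Set.range v) = W :=
    ⟨_, rfl, exists_basisQ _⟩
  have huK : ∀ i, u i ∈ K := fun i => (hUB (huU i)).2
  have huV : ∀ i, u i ∈ VT t := fun i => (hUB (huU i)).1
  -- the points and exponents outside the field
  have hrind : ∀ a : Fin y → ℂ, (∀ i, a i ∈ kL L') → ∑ i, a i * (c * r i) ∈ K → a = 0 := by
    intro a ha hs
    refine li_iff.1 hr a (fun i => h.kL.1 (ha i)) ?_
    have h1 : ∑ i, a i * r i ∈ Y := by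
      have : ∑ i, a i * r i = ∑ i, (⟨a i, h.kL.1 (ha i)⟩ : kL L) • r i := rfl
      rw [this]
      exact sum_mem (fun i _ => Submodule.smul_mem _ _ (hrY i))
    have h2 : ∑ i, a i * r i ∈ cK := by
      change c * ∑ i, a i * r i ∈ K
      rw [mul_sum]
      have : ∑ i, c * (a i * r i) = ∑ i, a i * (c * r i) := sum_congr rfl (fun i _ => by ring)
      rw [this]
      exact hs
    have h3 : ∑ i, a i * r i ∈ Y ⊓ (X ⊓ cK) := ⟨h1, hYX h1, h2⟩
    rw [hYA] at h3
    exact (Submodule.mem_bot _).1 h3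
  have hvind : ∀ g : Fin b → ℚ, ∑ i, g i • v i ∈ K → g = 0 := by
    intro g hg
    have h1 : ∑ i, g i • v i ∈ W := sum_mem (fun i _ => Submodule.smul_mem _ _ (hvW i))
    have h3 : ∑ i, g i • v i ∈ W ⊓ (VT t ⊓ FQ (IFd K)) := ⟨h1, hWX h1, hg⟩
    rw [hWB] at h3
    funext i
    exact Fintype.linearIndependent_iff.1 hv g ((Submodule.mem_bot _).1 h3) i
  have hyr : ((b + 2 * y : ℕ) : ℕ∞) ≤ (MK (IFd K)).eRk (ET v ∪ EP L' (fun i => c * r i)) := by
    rcases Nat.eq_zero_or_pos (b + y) with hy0 | hy0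
    · have h0 : ((b + 2 * y : ℕ) : ℕ∞) = 0 := by
        have : b + 2 * y = 0 := by omega
        rw [this]; rfl
      rw [h0]
      exact bot_le
    · have h1 := hK.fix hL' (z := fun i => c * r i) (t := v) hrind hvind hy0
      refine le_trans ?_ h1
      exact_mod_cast (by omega : b + 2 * y ≤ b + 2 * y + 1)
  -- the numbers in the field
  have hA'K : GA L' u (fun i => c * q i) ⊆ K := GA_mem hK hL' huK hqK
  have hA'f := GA_finite (L := L') u (fun i => c * q i)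
  have hB'f : (ET v ∪ EP L' (fun i => c * r i)).Finite := (ET_finite v).union (EP_finite _)
  have h1 := union_ge hK hk hA'f hB'f hA'K
  have h2 : (MK k).eRk (GA L' u (fun i => c * q i) ∪ (ET v ∪ EP L' (fun i => c * r i))) ≤
      (MK k).eRk (GA L t p) := by
    rw [← MK_FR k]
    apply rk_le_of_subset_cl
    rintro x (hx | hx)
    · exact sub_cl' h hcδ huV hqX hqL hx
    · exact sub_cl' h hcδ (fun i => hWX (hvW i)) (fun i => hYX (hrY i)) hrL (Or.inr hx)
  -- the dimensions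
  have e1 : d₁ t = a + b := by
    have h3 := d₁_eq t
    rw [finrank_P₁] at hUn
    omega
  have e2 : d₂ L p = m + y := by
    have h3 := d₂_eq (L := L) p
    rw [← hX] at h3
    omega
  have e3 : d₁ u = a := by
    refine dim_mod hu ?_
    rw [huS, inf_comm]
    exact hUP
  have e4 : d₂ L' (fun i => c * q i) = m := by
    unfold d₂
    have h3 : LinearIndependent (kL L') (fun i => (P₂ L').mkQ (c * q i)) := by
      rw [Fintype.linearIndependent_iff]
      intro g hg i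
      have h4 : ∑ i, g i • (P₂ L').mkQ (c * q i) =
          (P₂ L').mkQ (c * ∑ i, (g i : ℂ) * q i) := by
        rw [mul_sum, map_sum]
        refine sum_congr rfl (fun i _ => ?_)
        rw [← map_smul]
        congr 1
        change (g i : ℂ) * (c * q i) = _
        ring
      rw [h4] at hg
      obtain ⟨N, hN, h5⟩ := (Submodule.Quotient.mk_eq_zero _).1 hg
      have h6 : ∑ i, (g i : ℂ) * q i ∈ P₂ L := by
        refine ⟨N, hN, (h.mem _).1 ?_⟩
        have : c * (N * ∑ i, (g i : ℂ) * q i) = N * (c * ∑ i, (g i : ℂ) * q i) := by ring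
        rw [this]
        exact h5
      have h7 : ∑ i, (g i : ℂ) * q i ∈ Z := by
        have : ∑ i, (g i : ℂ) * q i = ∑ i, (⟨g i, h.kL.1 (g i).2⟩ : kL L) • q i := rfl
        rw [this]
        exact sum_mem (fun i _ => Submodule.smul_mem _ _ (hqA i))
      have h8 : ∑ i, (g i : ℂ) * q i ∈ Z ⊓ P₂ L := ⟨h7, h6⟩
      rw [hZP] at h8
      have h9 := li_iff.1 hq (fun i => (g i : ℂ)) (fun i => h.kL.1 (g i).2)
        ((Submodule.mem_bot _).1 h8)
      exact Subtype.ext (congrFun h9 i)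
    rw [finrank_span_eq_card h3, Fintype.card_fin]
  refine ⟨L', c, h, hL', a, m, u, q, huV, huK, hqX, hqK, hqL, ?_⟩
  rw [e3, e4, kL_eq h]
  rw [e1, e2] at hd
  have h3 := (add_le_add (le_refl ((MK k).eRk (GA L' u (fun i => c * q i)))) hyr).trans
    (h1.trans h2)
  have hR : (MK k).eRk (GA L t p) ≠ ⊤ :=
    ne_top_of_le_ne_top (Set.encard_ne_top_iff.2 (GA_finite t p)) ((MK k).eRk_le_encard _)
  have hR' : (MK k).eRk (GA L' u (fun i => c * q i)) ≠ ⊤ :=
    ne_top_of_le_ne_top (Set.encard_ne_top_iff.2 hA'f) ((MK k).eRk_le_encard _)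
  obtain ⟨R, hR⟩ := ENat.ne_top_iff_exists.1 hR
  obtain ⟨R', hR'⟩ := ENat.ne_top_iff_exists.1 hR'
  rw [← hR] at h3 hd
  rw [← hR'] at h3 ⊢
  norm_cast at h3 hd ⊢
  omega

/-- the numbers of a lattice with a period `1` -/
theorem rank_norm' (hL : L.ω₁ = 1) (t : Fin s → ℂ) (p : Fin 0 → ℂ) :
    (MK k).eRk (GA L t p) ≤ (MK k).eRk ({tpi} ∪ Y776.ET t) + ((4 : ℕ) : ℕ∞) := by
  have h4 : ({L.g₂, L.g₃, L.ω₂, eta L L.ω₁} : Set ℂ).encard ≤ ((4 : ℕ) : ℕ∞) := by
    refine (Set.encard_insert_le _ _).trans ?_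
    refine (add_le_add_left ((Set.encard_insert_le _ _).trans
      (add_le_add_left (pair_le _ _) 1)) 1).trans ?_
    norm_num
  refine le_trans ?_ (((MK k).eRk_union_le_eRk_add_encard _
    {L.g₂, L.g₃, L.ω₂, eta L L.ω₁}).trans (add_le_add le_rfl h4))
  rw [← MK_FR k]
  apply rk_le_of_subset_cl
  intro x hx
  rw [mem_cl_iff]
  intro δ _ hS
  have hr : ∀ y ∈ ({L.g₂, L.g₃, L.ω₂, eta L L.ω₁} : Set ℂ), δ y = 0 :=
    fun y hy => hS y (Or.inr hy)
  have d2 : δ L.g₂ = 0 := hr _ (by left; rfl)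
  have d3 : δ L.g₃ = 0 := hr _ (by right; left; rfl)
  have d4 : δ L.ω₂ = 0 := hr _ (by right; right; left; rfl)
  have d5 : δ (eta L L.ω₁) = 0 := hr _ (by right; right; right; rfl)
  have d1 : δ L.ω₁ = 0 := by rw [hL, δ.map_one_eq_zero]
  have dp : δ tpi = 0 := hS _ (Or.inl (Or.inl rfl))
  have d6 : δ (eta L L.ω₂) = 0 := by
    obtain ⟨n', hn', h1⟩ := legendre L
    have h5 : δ (n' : ℂ) = 0 := δ.map_intCast n'
    have h2 : δ (n' * tpi) = 0 := by rw [D_mul, dp, h5]; ring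
    unfold tpi at h2
    rw [← h1, map_sub, D_mul, D_mul, d1, d4, d5] at h2
    have h3 : L.ω₁ * δ (eta L L.ω₂) = 0 := by linear_combination h2
    exact (mul_eq_zero.1 h3).resolve_left (ω₁_ne_zero L)
  rcases hx with (rfl | rfl | rfl | rfl | rfl | rfl) | hx | ⟨i, -⟩ | ⟨i, -⟩ | ⟨i, -⟩
  · exact d2
  · exact d3
  · exact d1
  · exact d4
  · exact d5
  · exact d6
  · exact hS _ (Or.inl (Or.inr hx))
  all_goals exact i.elim0

/-- **The reduction**, lattices with `j` outside the field -/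
theorem reduceA (hK : Fld K) (hk : ∀ x : k, algebraMap k ℂ x ∈ K) {L : PeriodPair}
    (hj : jv L ∉ K) {t : Fin s → ℂ} {p : Fin n → ℂ} {d : ℕ}
    (hd : (MK k).eRk (GA L t p) + d ≤ ((d₁ t + 4 / finrank ℚ (kL L) + 2 * d₂ L p : ℕ) : ℕ∞)) :
    ∃ (a : ℕ) (u : Fin a → ℂ), (∀ i, u i ∈ VT t) ∧ (∀ i, u i ∈ K) ∧
      (MK k).eRk ({tpi} ∪ Y776.ET u) + d ≤ ((d₁ u : ℕ) : ℕ∞) := by
  classical
  have hR : RkF (IFd K) L := fun s n t p ht hp => (hK.gen L hj).2 s n t p ht hp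
  have hE : FR k ≤ IFd K := by
    rintro _ ⟨x, rfl⟩
    exact hk x
  have h1 := rank_GA (F := IFd K) (fun x hx => hK.exp x hx) hR hE t p
  rw [MK_FR k] at h1
  change _ + ((d₁ t + 4 + 2 * d₂ L p + 1 : ℕ) : ℕ∞) ≤ _ at h1
  have hP1 : P₁ ≤ VT t ⊓ FQ (IFd K) := by
    refine le_inf le_sup_left ?_
    unfold P₁
    rw [Submodule.span_le]
    rintro _ rfl
    exact hK.pi
  have hBf : FiniteDimensional ℚ (VT t ⊓ FQ (IFd K) : Submodule ℚ ℂ) :=
    Submodule.finiteDimensional_of_le inf_le_left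
  obtain ⟨U, hUB, hUP, hUn⟩ := exists_rel_compl hP1
  have hUf : FiniteDimensional ℚ U := Submodule.finiteDimensional_of_le hUB
  obtain ⟨a, ha, u, hu, huU, huS⟩ : ∃ a, a = finrank ℚ U ∧ ∃ u : Fin a → ℂ,
      LinearIndependent ℚ u ∧ (∀ i, u i ∈ U) ∧ Submodule.span ℚ (Set.range u) = U :=
    ⟨_, rfl, exists_basisQ _⟩
  rw [finrank_P₁] at hUn
  have e3 : d₁ u = a := by
    refine dim_mod hu ?_
    rw [huS, inf_comm]
    exact hUP
  refine ⟨a, u, fun i => (hUB (huU i)).1, fun i => (hUB (huU i)).2, ?_⟩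
  have h2 : (MK k).eRk ({tpi} ∪ Y776.ET u) ≤ (MK k).eRk (XE (VT t ⊓ FQ (IFd K))) := by
    apply (MK k).eRk_mono
    rintro x (rfl | ⟨i, rfl⟩ | ⟨i, rfl⟩)
    · exact Or.inl (hP1 (Submodule.mem_span_singleton_self _))
    · exact Or.inl (hUB (huU i))
    · exact Or.inr ⟨_, hUB (huU i), rfl⟩
  have hR : (MK k).eRk (GA L t p) ≠ ⊤ :=
    ne_top_of_le_ne_top (Set.encard_ne_top_iff.2 (GA_finite t p)) ((MK k).eRk_le_encard _)
  obtain ⟨R, hR⟩ := ENat.ne_top_iff_exists.1 hR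
  have h3 := (add_le_add_left h2 ((d₁ t + 4 + 2 * d₂ L p + 1 : ℕ) : ℕ∞)).trans h1
  rw [← hR] at h3 hd
  have hR' : (MK k).eRk ({tpi} ∪ Y776.ET u) ≠ ⊤ := by
    intro h0
    rw [h0, top_add, top_le_iff] at h3
    exact ENat.natCast_ne_top (R + finrank ℚ (VT t ⊓ FQ (IFd K) : Submodule ℚ ℂ))
      (by push_cast; exact h3)
  obtain ⟨R', hR'⟩ := ENat.ne_top_iff_exists.1 hR'
  rw [← hR'] at h3 ⊢
  have h4 : 4 / finrank ℚ (kL L) ≤ 4 := Nat.div_le_self _ _
  rw [e3]
  norm_cast at h3 hd ⊢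
  omega

end

end Pool.Agent.Y776.ET2
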