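import Mathlib
import Pool.Agent.Y776.ET.Fin
import Pool.Agent.Y776.EtProof

/-!
# The elliptico-toric conjecture: all failures come from a countable set of failures
-/

set_option autoImplicit false

open Filter Finset Module
open scoped Topology PeriodPair

noncomputable section

namespace Pool.Agent.Y776.ET2

open H667R3 Pool.Agent.W245.EB Pool.Agent.TH813.Ell Pool.Agent.Y776 Pool.Agent.Y685
open Pool.Agent.Y776.Et (gen gen_GA trd trd_of_rank gen_finite rank_finite dimMod T₀ P₀ jInv)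
open Pool.Agent.TH813.Rel (DF MK subset_cl rk_le_of_subset_cl cl_of_base exists_derF mem_cl)

variable {n s : ℕ} {L L' : PeriodPair} {c : ℂ}

/-- the conjecture over `K` fails by at least `m` -/
def Fails (K : Type) [Field K] [Algebra K ℂ] (m : ℕ) (L : PeriodPair) {s n : ℕ} (t : Fin s → ℂ)
    (p : Fin n → ℂ) : Prop :=
  (∀ i, p i ∉ L.lattice) ∧
    trd K (gen L t p) + m ≤
      ((dimMod T₀ t + 4 / finrank ℚ (Et.k L) + 2 * dimMod (P₀ L) p : ℕ) : Cardinal)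

theorem rank_iff {K : Type} [Field K] [Algebra K ℂ] {S : Set ℂ} (hS : S.Finite) (m N : ℕ) :
    (MK K).eRk S + m ≤ ((N : ℕ) : ℕ∞) ↔ trd K S + m ≤ ((N : ℕ) : Cardinal) := by
  obtain ⟨g, hg⟩ := rank_finite (K := K) hS
  rw [trd_of_rank hg, hg]
  norm_cast

theorem fails_iff {K : Type} [Field K] [Algebra K ℂ] {m : ℕ} {L : PeriodPair} {t : Fin s → ℂ}
    {p : Fin n → ℂ} : Fails K m L t p ↔ (∀ i, p i ∉ L.lattice) ∧ (MK K).eRk (GA L t p) + m ≤
      ((d₁ t + 4 / finrank ℚ (kL L) + 2 * d₂ L p : ℕ) : ℕ∞) := by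
  unfold Fails
  refine and_congr_right fun hp => ?_
  rw [← gen_GA t hp, rank_iff (gen_finite t p)]
  rfl

theorem tpi_im : 0 < (tpi : ℂ).im := by
  unfold tpi
  simp
  exact Real.pi_pos

theorem LC_LK {K : Subfield ℂ} (hK : Fld K) : LC tpi ∈ LK K := by
  refine ⟨?_, ?_⟩
  · rw [LC_ω₁]; exact one_mem K
  · rw [LC_ω₂ tpi_im]; exact hK.pi

theorem LC_kL : finrank ℚ (kL (LC tpi)) = 1 := by
  refine finrank_kL (F := algebraicClosure ℚ ℂ) (fun x hx => ?_) (fun x hx h => ?_)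
  · rw [mem_algebraicClosure_iff]
    have : Algebra.IsAlgebraic ℚ (algebraicClosure ℚ ℂ) := algebraicClosure.isAlgebraic ℚ ℂ
    exact hx.restrictScalars ℚ
  · rw [LC_ω₁, LC_ω₂ tpi_im, mul_one] at h
    have h3 : IsAlgebraic ℚ tpi := by
      rw [h]
      exact mem_algebraicClosure_iff.1 hx
    have h4 : IsAlgebraic ℚ (2 * Complex.I : ℂ) :=
      (isAlgebraic_natCast (R := ℚ) (A := ℂ) 2).mul Pool.Agent.H340R2.LW.isAlgebraic_I
    have h5 : (Real.pi : ℂ) = tpi * (2 * Complex.I)⁻¹ := by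
      rw [tpi]
      have := Complex.I_ne_zero
      field_simp
    exact Pool.Agent.H340R2.LW.transcendental_pi_complex (by
      rw [h5]
      exact h3.mul h4.inv)

/-- all failures -/
theorem main (K : Type) [Field K] [Algebra K ℂ] [Countable K] {S : Set ℂ} (hS : S.Countable) :
    ∃ F : Subfield ℂ, (F : Set ℂ).Countable ∧ S ⊆ F ∧ (∀ x, IsAlgebraic F x → x ∈ F) ∧
      (∀ x ∈ F, Complex.exp x ∈ F) ∧
      (∀ L : PeriodPair, L.ω₁ ∈ F → L.ω₂ ∈ F → ∀ x ∈ F, x ∉ L.lattice → ℘[L] x ∈ F ∧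
        Et.ζ L x ∈ F) ∧
      ∀ (m s n : ℕ) (L : PeriodPair) (t : Fin s → ℂ) (p : Fin n → ℂ), Fails K m L t p →
        ∃ (L' : PeriodPair) (s' n' : ℕ) (u : Fin s' → ℂ) (q : Fin n' → ℂ),
          gen L' u q ⊆ F ∧ Fails K m L' u q ∧
          (∀ i, u i ∈ Submodule.span ℚ ({2 * Real.pi * Complex.I} ∪ Set.range t)) ∧
          ((jInv L ∈ F ∧ ∃ c : ℂ, c ≠ 0 ∧ (∀ x, c * x ∈ L'.lattice ↔ x ∈ L.lattice) ∧
              ∀ i, ∃ v ∈ P₀ L ⊔ Submodule.span (Et.k L) (Set.range p), q i = c * v) ∨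
            (jInv L ∉ F ∧ n' = 0 ∧
              trd K ({2 * Real.pi * Complex.I} ∪ (Set.range u ∪ Complex.exp '' Set.range u)) + m ≤
                ((dimMod T₀ u : ℕ) : Cardinal))) := by
  classical
  obtain ⟨F, hF, hFS⟩ := exists_Fld (S := S ∪ Set.range (algebraMap K ℂ))
    (hS.union (Set.countable_range _))
  refine ⟨F, hF.cnt, fun x hx => hFS (Or.inl hx), hF.alg, hF.exp, fun L h1 h2 x hx hxL =>
    ⟨hF.wp L ⟨h1, h2⟩ x hx, ?_⟩, fun m s n L t p hf => ?_⟩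
  · have h3 := hF.zt L ⟨h1, h2⟩ x hx
    rwa [zt_of_notMem hxL] at h3
  have hk : ∀ x : K, algebraMap K ℂ x ∈ F := fun x => hFS (Or.inr ⟨x, rfl⟩)
  have hV : VT t = Submodule.span ℚ ({2 * Real.pi * Complex.I} ∪ Set.range t) := by
    rw [Submodule.span_union]
    rfl
  obtain ⟨hp, hd⟩ := fails_iff.1 hf
  by_cases hj : jv L ∈ F
  · obtain ⟨L', c, h, hL', a, b, u, q, huV, huK, hqV, hqK, hqL, hd'⟩ := reduceB hF hk hj hd
    have hq' : ∀ i, c * q i ∉ L'.lattice := fun i => h.notMem.2 (hqL i)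
    refine ⟨L', a, b, u, fun i => c * q i, ?_, fails_iff.2 ⟨hq', hd'⟩, fun i => ?_,
      Or.inl ⟨hj, c, h.c0, h.mem, fun i => ⟨q i, hqV i, rfl⟩⟩⟩
    · rw [gen_GA u hq']
      exact GA_mem hF hL' huK hqK
    · rw [← hV]
      exact huV i
  · obtain ⟨a, u, huV, huK, hd'⟩ := reduceA hF hk hj hd
    have h0 : ∀ i, (![] : Fin 0 → ℂ) i ∉ (LC tpi).lattice := fun i => i.elim0
    refine ⟨LC tpi, a, 0, u, ![], ?_, fails_iff.2 ⟨h0, ?_⟩, fun i => ?_, Or.inr ⟨hj, rfl, ?_⟩⟩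
    · rw [gen_GA u h0]
      exact GA_mem hF (LC_LK hF) huK (fun i => i.elim0)
    · have h1 := rank_norm' (k := K) (L := LC tpi) (LC_ω₁ tpi) u ![]
      rw [LC_kL]
      refine (add_le_add_left h1 (m : ℕ∞)).trans ?_
      have h2 : (MK K).eRk ({tpi} ∪ Y776.ET u) + ((4 : ℕ) : ℕ∞) + m =
          (MK K).eRk ({tpi} ∪ Y776.ET u) + m + ((4 : ℕ) : ℕ∞) := by ring
      rw [h2]
      refine (add_le_add_left hd' ((4 : ℕ) : ℕ∞)).trans ?_
      norm_cast
      have : (4 : ℕ) / 1 = 4 := Nat.div_one 4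
      omega
    · rw [← hV]
      exact huV i
    · have h2 : ({2 * Real.pi * Complex.I} ∪ (Set.range u ∪ Complex.exp '' Set.range u) : Set ℂ) =
          {tpi} ∪ Y776.ET u := by
        have e5 : Complex.exp '' Set.range u = Set.range (fun i => Complex.exp (u i)) :=
          (Set.range_comp _ _).symm
        rw [e5]
        rfl
      rw [h2]
      exact (rank_iff ((Set.finite_singleton _).union (ET_finite u)) m _).1 hd'

end Pool.Agent.Y776.ET2
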